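import Pool.Agent.PCS.Stmts

/-! PCS, row CST (helper38). -/

open scoped Pointwise

namespace Pool.Agent.PCS.H38

open Pool.Agent.H50.CIG Pool.Agent.PCS

theorem bdd_const {V : Type} (U : Ultrafilter V) (f : V → ℕ) (B : ℕ)
    (h : ∀ᶠ v in (U : Filter V), f v ≤ B) : ∃ k, k ≤ B ∧ ∀ᶠ v in (U : Filter V), f v = k := by
  have h1 : ∀ᶠ v in (U : Filter V), ∃ k ∈ Set.Iic B, f v = k := by
    filter_upwards [h] with v hv
    exact ⟨f v, hv, rfl⟩
  obtain ⟨k, hk, h2⟩ := (Ultrafilter.eventually_exists_mem_iff (Set.finite_Iic B)).1 h1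
  exact ⟨k, hk, h2⟩

theorem cst (hRks : RksStmt) : CstStmt := by
  intro Γ V _ _ T S rk R hR hS U n hU
  obtain ⟨-, h2, h3, -, -⟩ := hRks Γ V T S rk R hR hS
  obtain ⟨δ, hδ, e1⟩ := bdd_const U (del S rk) R (Filter.Eventually.of_forall fun v => (h2 v).1)
  obtain ⟨σ, -, e2⟩ := bdd_const U (sig S rk) (S.card * n * R) (by
    filter_upwards [hU.1] with v hv
    have := h3 v
    rwa [hv] at this)
  exact ⟨δ, σ, hδ, e1, e2⟩

end Pool.Agent.PCS.H38
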